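import Pool.Agent.W845.TR.Base

set_option autoImplicit false

namespace Pool.Agent.W918.TR

open Pool.Agent.W845.TR

theorem perm : St_PERM := by
  classical
  intro d Wc j
  let e : {x : {x // x ∈ Wc} // x.1 + ue j ∈ Wc} ≃ {x : {x // x ∈ Wc} // x.1 - ue j ∈ Wc} :=
    { toFun := fun x => ⟨⟨x.1.1 + ue j, x.2⟩, by
        change x.1.1 + ue j - ue j ∈ Wc
        rw [add_sub_cancel_right]
        exact x.1.2⟩
      invFun := fun x => ⟨⟨x.1.1 - ue j, x.2⟩, by
        change x.1.1 - ue j + ue j ∈ Wc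
        rw [sub_add_cancel]
        exact x.1.2⟩
      left_inv := fun x => Subtype.ext (Subtype.ext (add_sub_cancel_right _ _))
      right_inv := fun x => Subtype.ext (Subtype.ext (sub_add_cancel _ _)) }
  let f : Equiv.Perm {x // x ∈ Wc} := e.extendSubtype
  refine ⟨Equiv.Perm.ofSubtype f, ?_, ?_, ?_⟩
  · intro y hy hy2
    rw [Equiv.Perm.ofSubtype_apply_of_mem f hy]
    have h1 : f ⟨y, hy⟩ = e ⟨⟨y, hy⟩, hy2⟩ := Equiv.extendSubtype_apply_of_mem e ⟨y, hy⟩ hy2
    rw [h1]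
    rfl
  · intro y hy
    exact Equiv.Perm.ofSubtype_apply_of_not_mem f hy
  · intro y hy
    rw [Equiv.Perm.ofSubtype_apply_of_mem f hy]
    exact (f ⟨y, hy⟩).2

end Pool.Agent.W918.TR
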